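import Pool.Agent.N299.ND.Stm

/-!
# ND/MAT: spectral projection of a matrix and square zero triples

Author: helper697 (project ND of helper299).
-/

set_option autoImplicit false

open scoped BoundedContinuousFunction Topology Matrix.Norms.L2Operator ComplexOrder
open Filter Matrix

noncomputable section

namespace Pool.Agent.N697.ND

open Pool.Agent.N299 Pool.Agent.N299.DT Pool.Agent.N299.ND

open Classical in
/-- the projection on the coordinates in `S` -/
def PS {n : ℕ} (S : Finset (Fin (n + 1))) : M n := diagonal fun i => if i ∈ S then 1 else 0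

section

variable {n : ℕ} {S A : Finset (Fin (n + 1))}

theorem PS_star (S : Finset (Fin (n + 1))) : star (PS S) = PS S := by
  classical
  rw [Matrix.star_eq_conjTranspose, PS, diagonal_conjTranspose]
  congr 1
  funext i
  simp only [Pi.star_apply]
  split_ifs <;> simp

theorem PS_mul (hA : A ⊆ S) : PS S * PS A = PS A := by
  classical
  rw [PS, PS, diagonal_mul_diagonal]
  congr 1
  funext i
  by_cases h : i ∈ A
  · rw [if_pos h, if_pos (hA h), one_mul]
  · rw [if_neg h, mul_zero]

theorem PS_norm (S : Finset (Fin (n + 1))) : ‖PS S‖ ≤ 1 := by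
  classical
  rw [PS, Matrix.l2_opNorm_diagonal, pi_norm_le_iff_of_nonneg zero_le_one]
  intro i
  split_ifs <;> simp

/-- a square zero element with left support projection `PS A` -/
theorem exz (hA : A ⊆ S) (hc : A.card ≤ (S \ A).card) : ∃ z : M n, z * z = 0 ∧
    PS S * z = z ∧ z * PS S = z ∧ z * star z = PS A := by
  classical
  obtain ⟨e⟩ : Nonempty ({x // x ∈ A} ↪ {x // x ∈ S \ A}) :=
    Function.Embedding.nonempty_of_card_le (by
      rw [Fintype.card_coe, Fintype.card_coe]; exact hc)
  let f : Fin (n + 1) → Fin (n + 1) := fun i => if h : i ∈ A then (e ⟨i, h⟩).1 else 0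
  have hf : ∀ i ∈ A, f i ∈ S \ A := by
    intro i hi
    simp only [f, dif_pos hi]
    exact (e ⟨i, hi⟩).2
  have hfi : ∀ i ∈ A, ∀ j ∈ A, f i = f j → i = j := by
    intro i hi j hj h
    simp only [f, dif_pos hi, dif_pos hj] at h
    have h1 := e.injective (Subtype.ext h)
    exact congrArg Subtype.val h1
  let z : M n := Matrix.of fun i j => if i ∈ A ∧ f i = j then 1 else 0
  refine ⟨z, ?_, ?_, ?_, ?_⟩
  · ext i k
    rw [Matrix.mul_apply, Matrix.zero_apply]
    refine Finset.sum_eq_zero fun j _ => ?_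
    simp only [z, Matrix.of_apply]
    by_cases h : i ∈ A ∧ f i = j
    · rw [if_pos h, if_neg, mul_zero]
      rintro ⟨h1, -⟩
      have h2 := hf i h.1
      rw [h.2, Finset.mem_sdiff] at h2
      exact h2.2 h1
    · rw [if_neg h, zero_mul]
  · ext i j
    rw [PS, diagonal_mul]
    simp only [z, Matrix.of_apply]
    by_cases h : i ∈ A ∧ f i = j
    · rw [if_pos h, if_pos (hA h.1), mul_one]
    · rw [if_neg h, mul_zero]
  · ext i j
    rw [PS, mul_diagonal]
    simp only [z, Matrix.of_apply]
    by_cases h : i ∈ A ∧ f i = j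
    · have h2 := hf i h.1
      rw [h.2, Finset.mem_sdiff] at h2
      rw [if_pos h, if_pos h2.1, mul_one]
    · rw [if_neg h, zero_mul]
  · ext i k
    rw [Matrix.mul_apply, PS, diagonal_apply]
    simp only [Matrix.star_eq_conjTranspose, conjTranspose_apply, z, Matrix.of_apply]
    by_cases hi : i ∈ A
    · rw [Finset.sum_eq_single (f i)]
      · rw [if_pos ⟨hi, rfl⟩, one_mul]
        by_cases hik : i = k
        · subst hik
          rw [if_pos ⟨hi, rfl⟩, if_pos rfl, if_pos hi, star_one]
        · rw [if_neg hik, if_neg, star_zero]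
          rintro ⟨h1, h2⟩
          exact hik (hfi k h1 i hi h2).symm
      · intro j _ hj
        rw [if_neg (fun h => hj h.2.symm), zero_mul]
      · intro h
        exact absurd (Finset.mem_univ _) h
    · rw [Finset.sum_eq_zero]
      · rw [if_neg hi]
        simp
      · intro j _
        rw [if_neg (fun h => hi h.1), zero_mul]

/-- three disjoint small subsets -/
theorem split3 (S : Finset (Fin (n + 1))) (hS : 2 ≤ S.card) : ∃ A : Fin 3 → Finset (Fin (n + 1)),
    (∀ t, A t ⊆ S ∧ (A t).card ≤ (S \ A t).card) ∧ ∑ t, PS (A t) = PS S := by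
  classical
  obtain ⟨A1, h1, c1⟩ := Finset.exists_subset_card_eq (s := S) (n := S.card / 2) (by omega)
  have c1' : (S \ A1).card = S.card - S.card / 2 := by
    rw [Finset.card_sdiff_of_subset h1, c1]
  obtain ⟨A2, h2, c2⟩ := Finset.exists_subset_card_eq (s := S \ A1) (n := S.card / 2) (by omega)
  set A3 := (S \ A1) \ A2 with hA3
  have c3 : A3.card = S.card - S.card / 2 - S.card / 2 := by
    rw [hA3, Finset.card_sdiff_of_subset h2, c2, c1']
  have h2' : A2 ⊆ S := h2.trans Finset.sdiff_subset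
  have h3' : A3 ⊆ S := Finset.sdiff_subset.trans Finset.sdiff_subset
  refine ⟨![A1, A2, A3], ?_, ?_⟩
  · intro t
    fin_cases t
    · refine ⟨h1, ?_⟩
      show A1.card ≤ (S \ A1).card
      omega
    · refine ⟨h2', ?_⟩
      show A2.card ≤ (S \ A2).card
      rw [Finset.card_sdiff_of_subset h2']
      omega
    · refine ⟨h3', ?_⟩
      show A3.card ≤ (S \ A3).card
      rw [Finset.card_sdiff_of_subset h3']
      omega
  · rw [Fin.sum_univ_three]
    show PS A1 + PS A2 + PS A3 = PS S
    rw [PS, PS, PS, PS, diagonal_add, diagonal_add]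
    congr 1
    funext i
    have e2 : i ∈ A2 → i ∈ S ∧ i ∉ A1 := fun h => Finset.mem_sdiff.1 (h2 h)
    have e3 : i ∈ A3 ↔ (i ∈ S ∧ i ∉ A1) ∧ i ∉ A2 := by
      rw [hA3, Finset.mem_sdiff, Finset.mem_sdiff]
    by_cases k1 : i ∈ A1
    · have k2 : i ∉ A2 := fun h => (e2 h).2 k1
      have k3 : i ∉ A3 := fun h => (e3.1 h).1.2 k1
      simp [k1, k2, k3, h1 k1]
    · by_cases k2 : i ∈ A2
      · have k3 : i ∉ A3 := fun h => (e3.1 h).2 k2
        simp [k1, k2, k3, h2' k2]
      · by_cases k : i ∈ S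
        · have k3 : i ∈ A3 := e3.2 ⟨⟨k, k1⟩, k2⟩
          simp [k1, k2, k3, k]
        · have k3 : i ∉ A3 := fun h => k (h3' h)
          simp [k1, k2, k3, k]

/-- the alternative -/
def Alt (p : M n) : Prop :=
  (∀ x, ∃ c : ℂ, p * x * p = c • p) ∨ ∃ x z y : Fin 3 → M n,
    (∀ t, ‖x t‖ ≤ 1 ∧ ‖z t‖ ≤ 1 ∧ ‖y t‖ ≤ 1 ∧ z t * z t = 0 ∧ p * z t = z t ∧ z t * p = z t ∧
      p * x t = x t ∧ x t * p = x t ∧ p * y t = y t ∧ y t * p = y t) ∧
    ∑ t, x t * z t * y t = p

theorem alt_PS (S : Finset (Fin (n + 1))) : Alt (PS S) := by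
  classical
  by_cases hS : 2 ≤ S.card
  · right
    obtain ⟨A, hA, hsum⟩ := split3 S hS
    choose z hz using fun t => exz (hA t).1 (hA t).2
    refine ⟨fun _ => PS S, z, fun t => star (z t), ?_, ?_⟩
    · intro t
      obtain ⟨z1, z2, z3, z4⟩ := hz t
      have hn : ‖z t‖ ≤ 1 := by
        have h1 : ‖z t‖ * ‖z t‖ = ‖PS (A t)‖ := by
          rw [← z4, CStarRing.norm_self_mul_star]
        have h2 := PS_norm (A t)
        nlinarith [norm_nonneg (z t)]
      refine ⟨PS_norm S, hn, by rw [norm_star]; exact hn, z1, z2, z3, PS_mul subset_rfl,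
        PS_mul subset_rfl, ?_, ?_⟩
      · have h1 := congrArg star z3
        rw [star_mul, PS_star] at h1
        exact h1
      · have h1 := congrArg star z2
        rw [star_mul, PS_star] at h1
        exact h1
    · refine Eq.trans ?_ hsum
      refine Finset.sum_congr rfl fun t _ => ?_
      obtain ⟨z1, z2, z3, z4⟩ := hz t
      show PS S * z t * star (z t) = PS (A t)
      rw [z2, z4]
  · left
    intro x
    have hS1 : ∀ i ∈ S, ∀ j ∈ S, i = j := by
      have h1 : S.card ≤ 1 := by omega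
      intro i hi j hj
      exact Finset.card_le_one.1 h1 i hi j hj
    by_cases hne : S.Nonempty
    · obtain ⟨i0, hi0⟩ := hne
      refine ⟨x i0 i0, ?_⟩
      ext i j
      rw [Matrix.smul_apply, smul_eq_mul, PS, mul_diagonal, diagonal_mul, diagonal_apply]
      by_cases hi : i ∈ S
      · have e1 := hS1 i hi i0 hi0
        by_cases hj : j ∈ S
        · have e2 := hS1 j hj i0 hi0
          subst e1
          subst e2
          simp [hi0]
        · have e3 : i ≠ j := fun h => hj (h ▸ hi)
          simp [hj, e3]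
      · by_cases e3 : i = j
        · simp [hi, e3]
          subst e3
          simp [hi]
        · simp [hi, e3]
    · rw [Finset.not_nonempty_iff_eq_empty] at hne
      refine ⟨0, ?_⟩
      subst hne
      have : PS (∅ : Finset (Fin (n + 1))) = 0 := by
        rw [PS]
        simp
      rw [this]
      simp

/-- the statement for `T` -/
def Q (T : M n) (γ : ℝ) (p : M n) : Prop := star p = p ∧
  p * p = p ∧ p * T = T * p ∧ ‖T * (1 - p)‖ ≤ γ ∧ Pos (T - (γ : ℂ) • p) ∧ Alt p

theorem diag (d : Fin (n + 1) → ℝ) (hd : ∀ i, 0 ≤ d i) (γ : ℝ) (hγ : 0 < γ) :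
    ∃ p : M n, Q (diagonal fun i => (d i : ℂ)) γ p := by
  classical
  set S : Finset (Fin (n + 1)) := Finset.univ.filter fun i => γ ≤ d i with hS
  have hmem : ∀ i, i ∈ S ↔ γ ≤ d i := fun i => by simp [hS]
  refine ⟨PS S, PS_star S, PS_mul subset_rfl, ?_, ?_, ?_, alt_PS S⟩
  · rw [PS, diagonal_mul_diagonal, diagonal_mul_diagonal]
    congr 1
    funext i
    ring
  · have h1 : (1 : M n) = diagonal fun _ => 1 := by rw [diagonal_one]
    rw [h1, PS, diagonal_sub, diagonal_mul_diagonal, Matrix.l2_opNorm_diagonal,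
      pi_norm_le_iff_of_nonneg hγ.le]
    intro i
    by_cases h : i ∈ S
    · rw [if_pos h, sub_self, mul_zero, norm_zero]
      exact hγ.le
    · rw [if_neg h, sub_zero, mul_one, Complex.norm_real, Real.norm_of_nonneg (hd i)]
      rw [hmem, not_le] at h
      exact h.le
  · refine ⟨diagonal fun i => ((Real.sqrt (d i - if i ∈ S then γ else 0) : ℝ) : ℂ), ?_⟩
    rw [Matrix.star_eq_conjTranspose, diagonal_conjTranspose, diagonal_mul_diagonal, PS,
      ← diagonal_smul, diagonal_sub]
    congr 1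
    funext i
    simp only [Pi.smul_apply, smul_eq_mul, Pi.star_apply]
    have h0 : 0 ≤ d i - if i ∈ S then γ else 0 := by
      by_cases h : i ∈ S
      · rw [if_pos h, sub_nonneg]
        exact (hmem i).1 h
      · rw [if_neg h, sub_zero]
        exact hd i
    have e1 : star ((Real.sqrt (d i - if i ∈ S then γ else 0) : ℝ) : ℂ) =
        ((Real.sqrt (d i - if i ∈ S then γ else 0) : ℝ) : ℂ) := Complex.conj_ofReal _
    rw [e1, ← Complex.ofReal_mul, Real.mul_self_sqrt h0]
    by_cases h : i ∈ S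
    · simp [h]
    · simp [h]

theorem trans (U : unitary (M n)) {T p : M n} {γ : ℝ} (h : Q T γ p) :
    Q (Unitary.conjStarAlgAut ℂ (M n) U T) γ (Unitary.conjStarAlgAut ℂ (M n) U p) := by
  set Φ := Unitary.conjStarAlgAut ℂ (M n) U with hΦ
  have hn : ∀ x, ‖Φ x‖ = ‖x‖ := by
    intro x
    rw [hΦ, Unitary.conjStarAlgAut_apply]
    have h1 : ((star U : unitary (M n)) : M n) = star (U : M n) := rfl
    rw [← h1, CStarRing.norm_mul_coe_unitary, CStarRing.norm_coe_unitary_mul]
  obtain ⟨h1, h2, h3, h4, h5, h6⟩ := h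
  refine ⟨?_, ?_, ?_, ?_, ?_, ?_⟩
  · rw [← map_star, h1]
  · rw [← map_mul, h2]
  · rw [← map_mul, h3, map_mul]
  · rw [← map_one Φ, ← map_sub, ← map_mul, hn]
    exact h4
  · obtain ⟨y, hy⟩ := h5
    refine ⟨Φ y, ?_⟩
    rw [← map_smul, ← map_sub, hy, map_mul, map_star]
  · rcases h6 with h6 | ⟨x, z, y, h7, h8⟩
    · left
      intro x
      obtain ⟨c, hc⟩ := h6 (Φ.symm x)
      refine ⟨c, ?_⟩
      have h9 : Φ (Φ.symm x) = x := Φ.apply_symm_apply x
      rw [← h9, ← map_mul, ← map_mul, hc, map_smul]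
    · right
      refine ⟨fun t => Φ (x t), fun t => Φ (z t), fun t => Φ (y t), ?_, ?_⟩
      · intro t
        obtain ⟨k1, k2, k3, k4, k5, k6, k7, k8, k9, k10⟩ := h7 t
        refine ⟨?_, ?_, ?_, ?_, ?_, ?_, ?_, ?_, ?_, ?_⟩
        · rw [hn]; exact k1
        · rw [hn]; exact k2
        · rw [hn]; exact k3
        · rw [← map_mul, k4, map_zero]
        · rw [← map_mul, k5]
        · rw [← map_mul, k6]
        · rw [← map_mul, k7]
        · rw [← map_mul, k8]
        · rw [← map_mul, k9]
        · rw [← map_mul, k10]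
      · rw [← h8, map_sum]
        refine Finset.sum_congr rfl fun t _ => ?_
        rw [map_mul, map_mul]

end

theorem t_MAT : S_MAT := by
  intro n T γ hγ hT
  obtain ⟨y, hy⟩ := hT
  have hps : T.PosSemidef := by
    rw [hy, Matrix.star_eq_conjTranspose]
    exact Matrix.posSemidef_conjTranspose_mul_self y
  obtain ⟨p, hp⟩ := diag hps.1.eigenvalues (fun i => hps.eigenvalues_nonneg i) γ hγ
  have h1 := trans hps.1.eigenvectorUnitary hp
  have h2 : Unitary.conjStarAlgAut ℂ (M n) hps.1.eigenvectorUnitary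
      (diagonal fun i => ((hps.1.eigenvalues i : ℝ) : ℂ)) = T := by
    have h3 := hps.1.spectral_theorem
    exact h3.symm
  rw [h2] at h1
  exact ⟨_, h1⟩

end Pool.Agent.N697.ND
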